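import Pool.Agent.Helper14.CV.StD

/-!
# Module Ld5 of project CV: the leading form of `T_5`

The computation is done in an abstract ring of characteristic 2 with a filtration `L`.
-/

set_option autoImplicit false

namespace Pool.Agent.Helper47.CV

open Pool.Agent.Helper14.CV

private theorem ident {R : Type} [Ring R] (A B X Y : R) :
    (A + A ^ 2 + A + A ^ 3 * B + B ^ 3 + (A * B + B ^ 2) + (A ^ 3 * B ^ 2 + A ^ 2 * B ^ 3 + A)) +
      ((A + 1) * (A + 1) * (A + 1) * (B + 1) + ((A + 1) * (A + 1) * ((B + 1) * (B + 1) * (B + 1)) +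
      ((A + 1) * (A + 1) * (A + 1) * ((B + 1) * (B + 1)) + ((A + 1 + X) * ((B + 1) * (B + 1)) +
      (X * ((B + 1 + Y) * (B + 1)) + X * (Y * (B + 1 + Y))))))) + X * Y * Y =
    2 * (A ^ 3 * B ^ 2 + A ^ 2 * B ^ 3 + 2 * A ^ 3 * B + 3 * A ^ 2 * B ^ 2 + A * B ^ 3 + A ^ 3 +
      6 * A ^ 2 * B + 5 * A * B ^ 2 + B ^ 3 + 4 * A ^ 2 + 9 * A * B + 3 * B ^ 2 + 6 * A + 4 * B +
      1 + 1 + X * (B + 1) * (B + 1) + X * Y * (B + 1) + X * Y * Y) := by
  noncomm_ring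

/-- a filtration -/
private structure Fil {R : Type} [Ring R] (L : R → ℤ → Prop) : Prop where
  two : ∀ x : R, x + x = 0
  mul : ∀ (x y : R) (k k' : ℤ), L x k → L y k' → L (x * y) (k + k')
  add : ∀ (x y : R) (k : ℤ), L x k → L y k → L (x + y) k
  mono : ∀ (x : R) (k k' : ℤ), k' ≤ k → L x k → L x k'
  zero : ∀ k, L 0 k
  one : L 1 0

/-- congruence modulo `L 4` -/
private structure QQ {R : Type} [Ring R] (L : R → ℤ → Prop) (x y : R) : Prop where
  l : L x 0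
  r : L y 0
  d : L (x + y) 4

section
variable {R : Type} [Ring R] {L : R → ℤ → Prop}

private theorem QQ.rfl' (h0 : Fil L) {x : R} (h : L x 0) : QQ L x x :=
  ⟨h, h, by rw [h0.two]; exact h0.zero 4⟩

private theorem QQ.symm {x y : R} (h : QQ L x y) : QQ L y x :=
  ⟨h.r, h.l, by rw [add_comm]; exact h.d⟩

private theorem QQ.trans' (h0 : Fil L) {x y z : R} (h : QQ L x y) (h' : QQ L y z) : QQ L x z := by
  refine ⟨h.l, h'.r, ?_⟩
  have e : x + z = (x + y) + (y + z) := by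
    have : (x + y) + (y + z) = x + z + (y + y) := by abel
    rw [this, h0.two, add_zero]
  rw [e]
  exact h0.add _ _ _ h.d h'.d

private theorem QQ.add' (h0 : Fil L) {x y x' y' : R} (h : QQ L x y) (h' : QQ L x' y') :
    QQ L (x + x') (y + y') := by
  refine ⟨h0.add _ _ _ h.l h'.l, h0.add _ _ _ h.r h'.r, ?_⟩
  have e : (x + x') + (y + y') = (x + y) + (x' + y') := by abel
  rw [e]
  exact h0.add _ _ _ h.d h'.d

private theorem QQ.mul' (h0 : Fil L) {x y x' y' : R} (h : QQ L x y) (h' : QQ L x' y') :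
    QQ L (x * x') (y * y') := by
  refine ⟨h0.mul _ _ _ _ h.l h'.l, h0.mul _ _ _ _ h.r h'.r, ?_⟩
  have e : x * x' + y * y' = (x + y) * x' + y * (x' + y') := by
    have : (x + y) * x' + y * (x' + y') = x * x' + y * y' + (y * x' + y * x') := by
      rw [add_mul, mul_add]; abel
    rw [this, h0.two, add_zero]
  rw [e]
  exact h0.add _ _ _ (h0.mul _ _ 4 0 h.d h'.l) (h0.mul _ _ 0 4 h.r h'.d)

/-- the operators -/
private structure Ops {R : Type} [Ring R] (L : R → ℤ → Prop) (a b : ℤ → R) (X Y : R) : Prop where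
  fil : Fil L
  gA : ∀ z w, a z * a w = a (z + w)
  gB : ∀ z w, b z * b w = b (z + w)
  gA0 : a 0 = 1
  gB0 : b 0 = 1
  lA0 : ∀ z, L (a z) 0
  lB0 : ∀ z, L (b z) 0
  lA1 : L (a 1 + 1) 1
  lB1 : L (b 1 + 1) 1
  lA4 : ∀ z, 4 ∣ z → L (a z + 1) 4
  lB4 : ∀ z, 4 ∣ z → L (b z + 1) 4
  lX : L (a 1 + 1 + X) 3
  lY : L (b 1 + 1 + Y) 3
  lx : L X 1
  ly : L Y 1
  com : L (a 1 * b 1 + b 1 * a 1) 4

private theorem main {a b : ℤ → R} {X Y : R} (H : Ops L a b X Y) (m1 m2 m3 m4 : ℤ)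
    (e1 : 8 ∣ m1 - 3) (e2 : 8 ∣ m2 - 5) (e3 : 8 ∣ m3 - 6) (e4 : 8 ∣ m4 - 1) :
    L (a 1 + a 2 + a 5 + a m1 * b 1 + a m2 * b (-1) * a (-1) +
      a m3 * (1 + b 1 * a (-1)) * (b 1 * a (-1)) +
      a m4 * (a 1 * b (-1) * (a 1 * b (-1)) + a 1 * b (-1) + 1) + X * Y * Y) 4 := by
  have h0 := H.fil
  have gA := H.gA
  have gB := H.gB
  have gA0 := H.gA0
  have gB0 := H.gB0
  -- exponents modulo 4
  have qA : ∀ z w : ℤ, 4 ∣ z - w → QQ L (a z) (a w) := by
    intro z w h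
    refine ⟨H.lA0 z, H.lA0 w, ?_⟩
    have e : a z + a w = a w * (a (z - w) + 1) := by
      rw [mul_add, mul_one, gA, add_sub_cancel]
    rw [e]
    exact h0.mul _ _ 0 4 (H.lA0 w) (H.lA4 _ h)
  have qB : ∀ z w : ℤ, 4 ∣ z - w → QQ L (b z) (b w) := by
    intro z w h
    refine ⟨H.lB0 z, H.lB0 w, ?_⟩
    have e : b z + b w = b w * (b (z - w) + 1) := by
      rw [mul_add, mul_one, gB, add_sub_cancel]
    rw [e]
    exact h0.mul _ _ 0 4 (H.lB0 w) (H.lB4 _ h)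
  have rA : ∀ z : ℤ, QQ L (a z) (a z) := fun z => QQ.rfl' h0 (H.lA0 z)
  have rB : ∀ z : ℤ, QQ L (b z) (b z) := fun z => QQ.rfl' h0 (H.lB0 z)
  -- commutation
  have c1 : QQ L (a 1 * b 1) (b 1 * a 1) :=
    ⟨h0.mul _ _ 0 0 (H.lA0 1) (H.lB0 1), h0.mul _ _ 0 0 (H.lB0 1) (H.lA0 1), H.com⟩
  have c2 : QQ L (b 1 * a (-1)) (a (-1) * b 1) := by
    have h := QQ.mul' h0 (QQ.mul' h0 (rA (-1)) c1) (rA (-1))
    have x1 : a (-1) * (a 1 * b 1) * a (-1) = b 1 * a (-1) := by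
      rw [← mul_assoc, gA, neg_add_cancel, gA0, one_mul]
    have x2 : a (-1) * (b 1 * a 1) * a (-1) = a (-1) * b 1 := by
      rw [mul_assoc, mul_assoc, gA, add_neg_cancel, gA0, mul_one]
    rwa [x1, x2] at h
  have c3 : QQ L (a 1 * b (-1)) (b (-1) * a 1) := by
    have h := QQ.mul' h0 (QQ.mul' h0 (rB (-1)) c1) (rB (-1))
    have x1 : b (-1) * (a 1 * b 1) * b (-1) = b (-1) * a 1 := by
      rw [mul_assoc, mul_assoc, gB, add_neg_cancel, gB0, mul_one]
    have x2 : b (-1) * (b 1 * a 1) * b (-1) = a 1 * b (-1) := by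
      rw [← mul_assoc, gB, neg_add_cancel, gB0, one_mul]
    rw [x1, x2] at h
    exact h.symm
  -- the terms
  have d1 : 4 ∣ m1 - 3 := (show (4 : ℤ) ∣ 8 by norm_num).trans e1
  have d2 : 4 ∣ m2 - 1 := by omega
  have d3 : 4 ∣ m3 - 2 := by omega
  have d4 : 4 ∣ m4 - 1 := (show (4 : ℤ) ∣ 8 by norm_num).trans e4
  have t2 : QQ L (a m1 * b 1) (a 3 * b 1) := QQ.mul' h0 (qA _ _ d1) (rB 1)
  have t3 : QQ L (a m2 * b (-1) * a (-1)) (b 3) := by
    have h1 := QQ.mul' h0 (QQ.mul' h0 (qA _ _ d2) (rB (-1))) (rA (-1))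
    have h2 := QQ.mul' h0 c3 (rA (-1))
    have x1 : b (-1) * a 1 * a (-1) = b (-1) := by
      rw [mul_assoc, gA, add_neg_cancel, gA0, mul_one]
    rw [x1] at h2
    exact QQ.trans' h0 h1 (QQ.trans' h0 h2 (qB _ _ (by norm_num)))
  have t5 : QQ L (a 2 * (b 1 * a (-1))) (a 1 * b 1) := by
    have h1 := QQ.mul' h0 (rA 2) c2
    have x1 : a 2 * (a (-1) * b 1) = a 1 * b 1 := by
      rw [← mul_assoc, gA]
      norm_num
    rwa [x1] at h1
  have t4 : QQ L (a 2 * (b 1 * a (-1)) * (b 1 * a (-1))) (b 2) := by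
    have h1 := QQ.mul' h0 t5 c2
    have h2 := QQ.mul' h0 (QQ.mul' h0 (rA 1) c2) (rB 1)
    have x1 : a 1 * b 1 * (a (-1) * b 1) = a 1 * (b 1 * a (-1)) * b 1 := by
      simp only [mul_assoc]
    have x2 : a 1 * (a (-1) * b 1) * b 1 = b 2 := by
      rw [← mul_assoc, gA, add_neg_cancel, gA0, one_mul, gB]
      norm_num
    rw [x1] at h1
    rw [x2] at h2
    exact QQ.trans' h0 h1 h2
  have t45 : QQ L (a m3 * (1 + b 1 * a (-1)) * (b 1 * a (-1))) (a 1 * b 1 + b 2) := by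
    have rC := QQ.mul' h0 (rB 1) (rA (-1))
    have h1 := QQ.mul' h0 (qA _ _ d3) rC
    have h2 := QQ.mul' h0 h1 rC
    have h3 := QQ.add' h0 (QQ.trans' h0 h1 t5) (QQ.trans' h0 h2 t4)
    have x1 : a m3 * (1 + b 1 * a (-1)) * (b 1 * a (-1)) =
        a m3 * (b 1 * a (-1)) + a m3 * (b 1 * a (-1)) * (b 1 * a (-1)) := by
      rw [mul_add, mul_one, add_mul]
    rw [x1]
    exact h3
  have t7 : QQ L (a 1 * (a 1 * b (-1))) (a 2 * b 3) := by
    have x1 : a 1 * (a 1 * b (-1)) = a 2 * b (-1) := by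
      rw [← mul_assoc, gA]
      norm_num
    rw [x1]
    exact QQ.mul' h0 (rA 2) (qB _ _ (by norm_num))
  have t6 : QQ L (a 1 * (a 1 * b (-1) * (a 1 * b (-1)))) (a 3 * b 2) := by
    have h1 := QQ.mul' h0 (QQ.mul' h0 (rA 2) c3.symm) (rB (-1))
    have x1 : a 1 * (a 1 * b (-1) * (a 1 * b (-1))) = a 2 * (b (-1) * a 1) * b (-1) := by
      have : a 2 = a 1 * a 1 := by
        rw [gA]; norm_num
      rw [this]
      simp only [mul_assoc]
    have x2 : a 2 * (a 1 * b (-1)) * b (-1) = a 3 * b (-2) := by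
      rw [mul_assoc, mul_assoc, gB, ← mul_assoc, gA]
      norm_num
    rw [x2] at h1
    rw [x1]
    exact QQ.trans' h0 h1 (QQ.mul' h0 (rA 3) (qB _ _ (by norm_num)))
  have t678 : QQ L (a m4 * (a 1 * b (-1) * (a 1 * b (-1)) + a 1 * b (-1) + 1))
      (a 3 * b 2 + a 2 * b 3 + a 1) := by
    have rC := QQ.mul' h0 (rA 1) (rB (-1))
    have h1 := QQ.mul' h0 (qA _ _ d4) rC
    have h2 := QQ.mul' h0 (qA _ _ d4) (QQ.mul' h0 rC rC)
    have h3 := QQ.add' h0 (QQ.add' h0 (QQ.trans' h0 h2 t6) (QQ.trans' h0 h1 t7)) (qA _ _ d4)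
    have x1 : a m4 * (a 1 * b (-1) * (a 1 * b (-1)) + a 1 * b (-1) + 1) =
        a m4 * (a 1 * b (-1) * (a 1 * b (-1))) + a m4 * (a 1 * b (-1)) + a m4 := by
      rw [mul_add, mul_add, mul_one]
    rw [x1]
    exact h3
  have t0 : QQ L (a 1 + a 2 + a 5) (a 1 + a 2 + a 1) :=
    QQ.add' h0 (QQ.add' h0 (rA 1) (rA 2)) (qA _ _ (by norm_num))
  have tt := QQ.add' h0 (QQ.add' h0 (QQ.add' h0 (QQ.add' h0 t0 t2) t3) t45) t678
  -- the final identity
  obtain ⟨A, hAd⟩ : ∃ A : R, A = a 1 := ⟨_, rfl⟩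
  obtain ⟨B, hBd⟩ : ∃ B : R, B = b 1 := ⟨_, rfl⟩
  have a2 : a 2 = A ^ 2 := by
    rw [hAd, sq, gA]; norm_num
  have a3 : a 3 = A ^ 3 := by
    rw [hAd, pow_succ, sq, gA, gA]; norm_num
  have b2 : b 2 = B ^ 2 := by
    rw [hBd, sq, gB]; norm_num
  have b3 : b 3 = B ^ 3 := by
    rw [hBd, pow_succ, sq, gB, gB]; norm_num
  have htt := tt.d
  generalize a 1 + a 2 + a 5 + a m1 * b 1 + a m2 * b (-1) * a (-1) +
      a m3 * (1 + b 1 * a (-1)) * (b 1 * a (-1)) +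
      a m4 * (a 1 * b (-1) * (a 1 * b (-1)) + a 1 * b (-1) + 1) = P at htt ⊢
  rw [← hAd, ← hBd, a2, a3, b2, b3] at htt
  have lY1 : L (A + 1) 1 := by rw [hAd]; exact H.lA1
  have lZ1 : L (B + 1) 1 := by rw [hBd]; exact H.lB1
  have lYX : L (A + 1 + X) 3 := by rw [hAd]; exact H.lX
  have lZY : L (B + 1 + Y) 3 := by rw [hBd]; exact H.lY
  have lY2 := h0.mul _ _ _ _ lY1 lY1
  have lY3 := h0.mul _ _ _ _ lY2 lY1
  have lZ2 := h0.mul _ _ _ _ lZ1 lZ1
  have lZ3 := h0.mul _ _ _ _ lZ2 lZ1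
  have u1 := h0.mono _ _ 4 (by norm_num) (h0.mul _ _ _ _ lY3 lZ1)
  have u2 := h0.mono _ _ 4 (by norm_num) (h0.mul _ _ _ _ lY2 lZ3)
  have u3 := h0.mono _ _ 4 (by norm_num) (h0.mul _ _ _ _ lY3 lZ2)
  have u4 := h0.mono _ _ 4 (by norm_num) (h0.mul _ _ _ _ lYX lZ2)
  have u5 := h0.mono _ _ 4 (by norm_num) (h0.mul _ _ _ _ H.lx (h0.mul _ _ _ _ lZY lZ1))
  have u6 := h0.mono _ _ 4 (by norm_num) (h0.mul _ _ _ _ H.lx (h0.mul _ _ _ _ H.ly lZY))
  have hfin := h0.add _ _ _ htt (h0.add _ _ _ u1 (h0.add _ _ _ u2 (h0.add _ _ _ u3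
    (h0.add _ _ _ u4 (h0.add _ _ _ u5 u6)))))
  have two : (2 : R) = 0 := by
    rw [← one_add_one_eq_two]
    exact h0.two 1
  have hid := ident A B X Y
  rw [two, zero_mul] at hid
  generalize (A + A ^ 2 + A + A ^ 3 * B + B ^ 3 + (A * B + B ^ 2) +
    (A ^ 3 * B ^ 2 + A ^ 2 * B ^ 3 + A)) = S at hfin hid
  generalize ((A + 1) * (A + 1) * (A + 1) * (B + 1) +
      ((A + 1) * (A + 1) * ((B + 1) * (B + 1) * (B + 1)) +
      ((A + 1) * (A + 1) * (A + 1) * ((B + 1) * (B + 1)) + ((A + 1 + X) * ((B + 1) * (B + 1)) +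
      (X * ((B + 1 + Y) * (B + 1)) + X * (Y * (B + 1 + Y))))))) = T at hfin hid
  have e : P + X * Y * Y = P + S + T := by
    have h1 : P + X * Y * Y = (P + S + T) + ((X * Y * Y + X * Y * Y) - (S + T + X * Y * Y)) := by
      abel
    rw [h1, h0.two, hid, sub_zero, add_zero]
  rw [e]
  exact hfin

/-- the operator which acts on `F1` -/
private theorem main1 {a b : ℤ → R} {X Y : R} (H : Ops L a b X Y) (m1 m2 m3 m4 : ℤ)
    (e1 : 8 ∣ m1 - 3) (e2 : 8 ∣ m2 - 5) (e3 : 8 ∣ m3 - 6) (e4 : 8 ∣ m4 - 1) :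
    L (a m1 + a m2 + a m3 + a m4 + (a 1 + a 2 + a 5) * (1 + a 1)) 5 := by
  have h0 := H.fil
  have gA := H.gA
  have q8 : ∀ z w : ℤ, 8 ∣ z - w → L (a z + a w) 5 := by
    intro z w h
    obtain ⟨j, hj⟩ := h
    have e : a z + a w = a w * ((a (4 * j) + 1) * (a (4 * j) + 1)) := by
      have x1 : (a (4 * j) + 1) * (a (4 * j) + 1) = a (8 * j) + 1 := by
        have : (a (4 * j) + 1) * (a (4 * j) + 1) = a (4 * j) * a (4 * j) + 1 +
            (a (4 * j) + a (4 * j)) := by noncomm_ring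
        rw [this, h0.two, add_zero, gA]
        congr 2
        ring
      rw [x1, mul_add, mul_one, gA]
      congr 2
      linarith
    rw [e]
    have h4 := H.lA4 (4 * j) (dvd_mul_right _ _)
    exact h0.mono _ _ 5 (by norm_num) (h0.mul _ _ _ _ (H.lA0 w) (h0.mul _ _ _ _ h4 h4))
  have x1 : (a 1 + a 2 + a 5) * (1 + a 1) = a 1 + a 3 + a 5 + a 6 := by
    have : (a 1 + a 2 + a 5) * (1 + a 1) = a 1 + a 2 + a 5 + (a 1 * a 1 + a 2 * a 1 + a 5 * a 1) := by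
      noncomm_ring
    rw [this, gA, gA, gA]
    norm_num
    have h2 : a 1 + a 2 + a 5 + (a 2 + a 3 + a 6) = a 1 + a 3 + a 5 + a 6 + (a 2 + a 2) := by abel
    rw [h2, h0.two, add_zero]
  have x2 : a m1 + a m2 + a m3 + a m4 + (a 1 + a 3 + a 5 + a 6) =
      (a m1 + a 3) + (a m2 + a 5) + (a m3 + a 6) + (a m4 + a 1) := by abel
  rw [x1, x2]
  exact h0.add _ _ _ (h0.add _ _ _ (h0.add _ _ _ (q8 _ _ e1) (q8 _ _ e2)) (q8 _ _ e3)) (q8 _ _ e4)
end

private theorem fadd {q q' : ℕ} (F : Fn q q') : F + F = 0 := by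
  funext x y
  exact CharTwo.add_self_eq_zero _

private theorem ops (hLow0 : StLow0) (hGrp : StGrp) (hLowA : StLowA) (r s : ℕ) :
    Ops (R := Module.End (ZMod 2) (Fn (2 ^ r) (2 ^ s))) Low (fun z => opA z) (fun z => opB z) dx dy := by
  obtain ⟨gA, gB, gA0, gB0, -, -⟩ := hGrp r s
  obtain ⟨lA, lX, lY, lcom, -⟩ := hLowA r s
  obtain ⟨p1, p2, p3, -, p5, p6, p7, -⟩ := hLow0 r s
  exact
    { fil :=
        { two := fun O => LinearMap.ext fun F => fadd (O F)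
          mul := fun O P k k' h h' => p1 O P k k' h h'
          add := fun O P k h h' => p2 O P k h h'
          mono := fun O k k' hk h => p3 O k k' hk h
          zero := fun k d F _ => Submodule.zero_mem _
          one := p5 }
      gA := gA
      gB := gB
      gA0 := gA0
      gB0 := gB0
      lA0 := fun z => (lA z).2.2.1
      lB0 := fun z => (lA z).2.2.2.1
      lA1 := (lA 1).1
      lB1 := (lA 1).2.1
      lA4 := fun z => (lA z).2.2.2.2.1
      lB4 := fun z => (lA z).2.2.2.2.2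
      lX := lX
      lY := lY
      lx := p6
      ly := p7
      com := lcom }

theorem hLd5 (hLow0 : StLow0) (hGrp : StGrp) (hLowA : StLowA) : StLd5 := by
  intro r s m1 m2 m3 m4 d F1 F3 hR e1 e2 e3 e4 hF
  have H := ops hLow0 hGrp hLowA r s
  have h0 := H.fil
  obtain ⟨gA, -, gA0, -, gC, gC'⟩ := hGrp r s
  obtain ⟨-, -, -, -, hDE⟩ := hLowA r s
  obtain ⟨hD, -, hDE5⟩ := hDE 5 (by decide)
  have hmono : ∀ k k' : ℤ, k ≤ k' → ∀ F : Fn (2 ^ r) (2 ^ s), F ∈ Wd k → F ∈ Wd k' :=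
    fun k k' h F hF => (hLow0 r s).2.2.2.1 k k' h hF
  have hcomm : (dx * dy : Module.End (ZMod 2) (Fn (2 ^ r) (2 ^ s))) = dy * dx :=
    (hLow0 r s).2.2.2.2.2.2.2.1
  obtain ⟨V, hV⟩ : ∃ V : Fn (2 ^ r) (2 ^ s), V = F1 + opA 1 F1 := ⟨_, rfl⟩
  have hV3 : V = F3 + opC' F3 := by
    rw [hV]
    funext x y
    have h := hR x y
    have h1 : (F1 + opA 1 F1) x y = tA 1 F1 x y - F1 x y := by
      rw [CharTwo.sub_eq_add]
      exact add_comm _ _
    have h2 : (F3 + opC' F3) x y = tA 1 (tB (-1) F3) x y - F3 x y := by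
      rw [CharTwo.sub_eq_add]
      exact add_comm _ _
    rw [h1, h2, h]
  have hV1 : V ∈ Wd (d - 1) := by
    have h := H.lA1 d F1 hF
    have e : (opA 1 + 1 : Module.End (ZMod 2) (Fn (2 ^ r) (2 ^ s))) F1 = V := by
      rw [hV, LinearMap.add_apply, Module.End.one_apply, add_comm]
    rwa [e] at h
  have hVd : V + dx F1 ∈ Wd (d - 3) := by
    have h := H.lX d F1 hF
    have e : (opA 1 + 1 + dx : Module.End (ZMod 2) (Fn (2 ^ r) (2 ^ s))) F1 = V + dx F1 := by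
      rw [hV, LinearMap.add_apply, LinearMap.add_apply, Module.End.one_apply, add_comm F1]
    rwa [e] at h
  -- the four brackets
  have g1 : F1 + opB 1 F1 + opB 1 (opA 1 F1) = F1 + opB 1 V := by
    rw [hV, map_add, add_assoc]
  have g2 : F1 + opB (-1) F1 + opB (-1) (opA (-1) F1) = F1 + opB (-1) (opA (-1) V) := by
    have x : opA (-1) (opA 1 F1) = F1 := by
      have := congrArg (fun O : Module.End (ZMod 2) (Fn (2 ^ r) (2 ^ s)) => O F1) (gA (-1) 1)
      simp only [Module.End.mul_apply] at this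
      rw [this, neg_add_cancel, gA0, Module.End.one_apply]
    rw [hV, map_add (opA (-1)), x, map_add, add_assoc, add_comm (opB (-1) F1)]
  have g3 : F3 + opC (opC F3) = opC V + opC (opC V) := by
    have x : opC (opC' F3) = F3 := by
      have := congrArg (fun O : Module.End (ZMod 2) (Fn (2 ^ r) (2 ^ s)) => O F3) gC
      simp only [Module.End.mul_apply, Module.End.one_apply] at this
      exact this
    rw [hV3, map_add, x, map_add]
    have : opC F3 + F3 + (opC (opC F3) + opC F3) = F3 + opC (opC F3) + (opC F3 + opC F3) := by abel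
    rw [this, fadd, add_zero]
  have g4 : F3 + opC' (opC' (opC' F3)) = opC' (opC' V) + opC' V + V := by
    rw [hV3, map_add, map_add]
    have : opC' (opC' F3) + opC' (opC' (opC' F3)) + (opC' F3 + opC' (opC' F3)) + (F3 + opC' F3) =
        F3 + opC' (opC' (opC' F3)) + (opC' (opC' F3) + opC' (opC' F3)) + (opC' F3 + opC' F3) := by
      abel
    rw [this, fadd, fadd, add_zero, add_zero]
  obtain ⟨b, hb⟩ : ∃ b : Fn (2 ^ r) (2 ^ s), b = (opA m1 F1 + opA m2 F1 + opA m3 F1 + opA m4 F1) +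
      (opA m1 (opB 1 V) + opA m2 (opB (-1) (opA (-1) V)) + opA m3 (opC V + opC (opC V)) +
      opA m4 (opC' (opC' V) + opC' V + V)) := ⟨_, rfl⟩
  have hT : T5f m1 m2 m3 m4 F1 F3 = opE 5 F1 + (opD 5 F1 + opD 5 b) := by
    unfold T5f
    rw [g1, g2, add_assoc F1 F3, g3, add_assoc F1 F3, g4, ← map_add (opD 5)]
    congr 2
    rw [hb]
    simp only [map_add]
    abel
  have hL5 : (dx * dy * dy : Module.End (ZMod 2) (Fn (2 ^ r) (2 ^ s))) (dx F1) = L5 F1 := by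
    have : (dx * dy * dy * dx : Module.End (ZMod 2) (Fn (2 ^ r) (2 ^ s))) = L5 := by
      unfold L5
      rw [sq, sq, mul_assoc (dx * dy), ← hcomm, mul_assoc dx dy, ← mul_assoc dy dx, ← hcomm]
      simp only [mul_assoc]
    rw [← this]
    rfl
  have hbL : b + L5 F1 ∈ Wd (d - 5) := by
    have w1 := main1 H m1 m2 m3 m4 e1 e2 e3 e4 d F1 hF
    have w2 := main H m1 m2 m3 m4 e1 e2 e3 e4 (d - 1) V hV1
    have w3 := h0.mul _ _ _ _ (h0.mul _ _ _ _ H.lx H.ly) H.ly (d - 3) _ hVd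
    have w2' := hmono _ (d - 5) (by linarith) _ w2
    have w3' := hmono _ (d - 5) (by linarith) _ w3
    have w := Submodule.add_mem _ (Submodule.add_mem _ w1 w2') w3'
    have v1 : (opA m1 + opA m2 + opA m3 + opA m4 + (opA 1 + opA 2 + opA 5) * (1 + opA 1) :
        Module.End (ZMod 2) (Fn (2 ^ r) (2 ^ s))) F1 =
        (opA m1 F1 + opA m2 F1 + opA m3 F1 + opA m4 F1) + (opA 1 V + opA 2 V + opA 5 V) := by
      rw [hV]
      rfl
    have v2 : (opA 1 + opA 2 + opA 5 + opA m1 * opB 1 + opA m2 * opB (-1) * opA (-1) +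
        opA m3 * (1 + opB 1 * opA (-1)) * (opB 1 * opA (-1)) +
        opA m4 * (opA 1 * opB (-1) * (opA 1 * opB (-1)) + opA 1 * opB (-1) + 1) + dx * dy * dy :
        Module.End (ZMod 2) (Fn (2 ^ r) (2 ^ s))) V =
        (opA 1 V + opA 2 V + opA 5 V) + opA m1 (opB 1 V) + opA m2 (opB (-1) (opA (-1) V)) +
        opA m3 (opC V + opC (opC V)) + opA m4 (opC' (opC' V) + opC' V + V) +
        (dx * dy * dy : Module.End (ZMod 2) (Fn (2 ^ r) (2 ^ s))) V := rfl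
    have v3 : (dx * dy * dy : Module.End (ZMod 2) (Fn (2 ^ r) (2 ^ s))) (V + dx F1) =
        (dx * dy * dy : Module.End (ZMod 2) (Fn (2 ^ r) (2 ^ s))) V + L5 F1 := by
      rw [map_add, hL5]
    have e : b + L5 F1 = (opA m1 + opA m2 + opA m3 + opA m4 + (opA 1 + opA 2 + opA 5) * (1 + opA 1) :
        Module.End (ZMod 2) (Fn (2 ^ r) (2 ^ s))) F1 +
        (opA 1 + opA 2 + opA 5 + opA m1 * opB 1 + opA m2 * opB (-1) * opA (-1) +
        opA m3 * (1 + opB 1 * opA (-1)) * (opB 1 * opA (-1)) +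
        opA m4 * (opA 1 * opB (-1) * (opA 1 * opB (-1)) + opA 1 * opB (-1) + 1) + dx * dy * dy :
        Module.End (ZMod 2) (Fn (2 ^ r) (2 ^ s))) V +
        (dx * dy * dy : Module.End (ZMod 2) (Fn (2 ^ r) (2 ^ s))) (V + dx F1) := by
      rw [v1, v2, v3, hb]
      generalize (opA 1 V + opA 2 V + opA 5 V) = x1
      generalize (opA m1 F1 + opA m2 F1 + opA m3 F1 + opA m4 F1) = x2
      generalize opA m1 (opB 1 V) = x3
      generalize opA m2 (opB (-1) (opA (-1) V)) = x4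
      generalize opA m3 (opC V + opC (opC V)) = x5
      generalize opA m4 (opC' (opC' V) + opC' V + V) = x6
      generalize (dx * dy * dy : Module.End (ZMod 2) (Fn (2 ^ r) (2 ^ s))) V = x7
      generalize L5 F1 = x8
      have : x2 + x1 + (x1 + x3 + x4 + x5 + x6 + x7) + (x7 + x8) =
          x2 + (x3 + x4 + x5 + x6) + x8 + (x1 + x1) + (x7 + x7) := by abel
      rw [this, fadd, fadd, add_zero, add_zero]
    rw [e]
    exact w
  have hL4 : L5 F1 ∈ Wd (d - 4) := by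
    rw [← hL5]
    have h1 := H.lx d F1 hF
    have w3 := h0.mul _ _ _ _ (h0.mul _ _ _ _ H.lx H.ly) H.ly (d - 1) _ h1
    exact hmono _ _ (by linarith) _ w3
  have hb4 : b ∈ Wd (d - 4) := by
    have h1 := Submodule.add_mem _ (hmono _ (d - 4) (by linarith) _ hbL) hL4
    rwa [add_assoc, fadd, add_zero] at h1
  have hD1 := hD (d - 4) b hb4
  have hDE1 := hDE5 d F1 hF
  have w := Submodule.add_mem _ (Submodule.add_mem _ (hmono _ (d - 5) (by linarith) _ hDE1)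
    (hmono _ (d - 5) (by linarith) _ hD1)) hbL
  have e : T5f m1 m2 m3 m4 F1 F3 + L5 F1 =
      (opD 5 + opE 5 : Module.End (ZMod 2) (Fn (2 ^ r) (2 ^ s))) F1 +
      (opD 5 + 1 : Module.End (ZMod 2) (Fn (2 ^ r) (2 ^ s))) b + (b + L5 F1) := by
    rw [hT, LinearMap.add_apply, LinearMap.add_apply, Module.End.one_apply]
    generalize opD 5 F1 = x1
    generalize opE 5 F1 = x2
    generalize opD 5 b = x3
    generalize L5 F1 = x4
    have : x1 + x2 + (x3 + b) + (b + x4) = x2 + (x1 + x3) + x4 + (b + b) := by abel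
    rw [this, fadd, add_zero]
  rw [e]
  exact w

end Pool.Agent.Helper47.CV
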